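import Pool.Agent.Q215.MK.Stm
import Pool.Agent.H139R3.MF.Mark

set_option autoImplicit false

/-! # Decomposition of an aperiodic countable Borel equivalence relation into finite blocks -/

open Set

namespace Pool.Agent.Q178.MK

/-- `P` meets every class in an infinite set. -/
def Fat {X : Type} (E : X → X → Prop) (P : Set X) : Prop := ∀ x, {y | E x y ∧ y ∈ P}.Infinite

/-- The two unmatched sets after `n` steps. -/
def PQ {X : Type} (s : ℕ → X → X) (P Q : Set X) : ℕ → Set X × Set X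
  | 0 => (P, Q)
  | n + 1 => ((PQ s P Q n).1 \ (s n) ⁻¹' (PQ s P Q n).2, (PQ s P Q n).2 \ (s n) ⁻¹' (PQ s P Q n).1)

/-- The set matched at step `n`. -/
def DD {X : Type} (s : ℕ → X → X) (P Q : Set X) (n : ℕ) : Set X :=
  (PQ s P Q n).1 ∩ (s n) ⁻¹' (PQ s P Q n).2

theorem pq_anti1 {X : Type} (s : ℕ → X → X) (P Q : Set X) {n m : ℕ} (h : n ≤ m) :
    (PQ s P Q m).1 ⊆ (PQ s P Q n).1 := by
  induction m, h using Nat.le_induction with
  | base => exact subset_rfl
  | succ m _ ih => exact (sdiff_subset).trans ih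

theorem pq_anti2 {X : Type} (s : ℕ → X → X) (P Q : Set X) {n m : ℕ} (h : n ≤ m) :
    (PQ s P Q m).2 ⊆ (PQ s P Q n).2 := by
  induction m, h using Nat.le_induction with
  | base => exact subset_rfl
  | succ m _ ih => exact (sdiff_subset).trans ih

theorem pq_meas {X : Type} [MeasurableSpace X] (s : ℕ → X → X) (hsm : ∀ n, Measurable (s n))
    (P Q : Set X) (hP : MeasurableSet P) (hQ : MeasurableSet Q) (n : ℕ) :
    MeasurableSet (PQ s P Q n).1 ∧ MeasurableSet (PQ s P Q n).2 := by
  induction n with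
  | zero => exact ⟨hP, hQ⟩
  | succ n ih => exact ⟨ih.1.diff (ih.2.preimage (hsm n)), ih.2.diff (ih.1.preimage (hsm n))⟩

theorem matching {X : Type} [MeasurableSpace X] (s : ℕ → X → X)
    (hsm : ∀ n, Measurable (s n)) (hinv : ∀ n x, s n (s n x) = x) (E : X → X → Prop)
    (hE : Equivalence E) (hs : ∀ x y, E x y ↔ ∃ n, s n x = y) (P Q : Set X)
    (hP : MeasurableSet P) (hQ : MeasurableSet Q) (hPf : Fat E P) (hQf : Fat E Q) :
    ∃ (D : Set X) (b : X → X), MeasurableSet D ∧ D ⊆ P ∧ Fat E D ∧ Measurable b ∧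
      InjOn b D ∧ (∀ x ∈ D, b x ∈ Q) ∧ ∀ x ∈ D, E x (b x) := by
  classical
  have hm := pq_meas s hsm P Q hP hQ
  have hDm : ∀ n, MeasurableSet (DD s P Q n) := fun n => (hm n).1.inter ((hm n).2.preimage (hsm n))
  have hdis : ∀ n m x, x ∈ DD s P Q n → x ∈ DD s P Q m → n = m := by
    have key : ∀ n m x, n < m → x ∈ DD s P Q n → x ∈ DD s P Q m → False := by
      intro n m x hnm hn hmm
      have h1 : x ∈ (PQ s P Q (n + 1)).1 := pq_anti1 s P Q hnm hmm.1
      exact h1.2 hn.2
    intro n m x hn hmm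
    rcases lt_trichotomy n m with h | h | h
    · exact (key n m x h hn hmm).elim
    · exact h
    · exact (key m n x h hmm hn).elim
  let b : X → X := fun x => if h : ∃ n, x ∈ DD s P Q n then s (Nat.find h) x else x
  have hb : ∀ n x, x ∈ DD s P Q n → b x = s n x := by
    intro n x hx
    have h : ∃ n, x ∈ DD s P Q n := ⟨n, hx⟩
    have h2 : Nat.find h = n := hdis _ _ x (Nat.find_spec h) hx
    simp only [b, dif_pos h, h2]
  have hb0 : ∀ x, (¬ ∃ n, x ∈ DD s P Q n) → b x = x := by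
    intro x hx
    simp only [b, dif_neg hx]
  have hbQ : ∀ n x, x ∈ DD s P Q n → s n x ∈ (PQ s P Q n).2 ∧ s n x ∉ (PQ s P Q (n + 1)).2 := by
    intro n x hx
    refine ⟨hx.2, fun h => h.2 ?_⟩
    rw [mem_preimage, hinv]
    exact hx.1
  have hinj : ∀ n m x y, x ∈ DD s P Q n → y ∈ DD s P Q m → s n x = s m y → x = y := by
    intro n m x y hx hy hxy
    have key : ∀ n m z, n < m → z ∉ (PQ s P Q (n + 1)).2 → z ∈ (PQ s P Q m).2 → False := by
      intro n m z hnm h1 h2
      exact h1 (pq_anti2 s P Q hnm h2)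
    have hnm : n = m := by
      rcases lt_trichotomy n m with h | h | h
      · exact (key n m (s n x) h (hbQ n x hx).2 (by rw [hxy]; exact (hbQ m y hy).1)).elim
      · exact h
      · exact (key m n (s m y) h (hbQ m y hy).2 (by rw [← hxy]; exact (hbQ n x hx).1)).elim
    subst hnm
    rw [← hinv n x, hxy, hinv]
  refine ⟨⋃ n, DD s P Q n, b, MeasurableSet.iUnion hDm, ?_, ?_, ?_, ?_, ?_, ?_⟩
  · exact iUnion_subset fun n => inter_subset_left.trans (pq_anti1 s P Q (Nat.zero_le n))
  · intro x0 hfin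
    have hfin' : {y | E x0 y ∧ y ∈ ⋃ n, DD s P Q n}.Finite := hfin
    obtain ⟨x, hx1, hx2⟩ := (hPf x0).exists_notMem_finite hfin'
    obtain ⟨y, hy1, hy2⟩ := (hQf x0).exists_notMem_finite (hfin'.image b)
    have hxD : ∀ n, x ∉ DD s P Q n := fun n h => hx2 ⟨hx1.1, mem_iUnion.2 ⟨n, h⟩⟩
    have hxP : ∀ n, x ∈ (PQ s P Q n).1 := by
      intro n
      induction n with
      | zero => exact hx1.2
      | succ n ih => exact ⟨ih, fun h => hxD n ⟨ih, h⟩⟩
    have hyQ : ∀ n, y ∈ (PQ s P Q n).2 := by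
      intro n
      induction n with
      | zero => exact hy1.2
      | succ n ih =>
        refine ⟨ih, fun h => hy2 ?_⟩
        have h1 : s n y ∈ DD s P Q n := ⟨h, by rw [mem_preimage, hinv]; exact ih⟩
        refine ⟨s n y, ⟨hE.trans hy1.1 ((hs _ _).2 ⟨n, rfl⟩), mem_iUnion.2 ⟨n, h1⟩⟩, ?_⟩
        rw [hb n _ h1, hinv]
    obtain ⟨n, hn⟩ := (hs x y).1 (hE.trans (hE.symm hx1.1) hy1.1)
    exact hxD n ⟨hxP n, by rw [mem_preimage, hn]; exact hyQ n⟩
  · intro S hS
    have e1 : b ⁻¹' S = (⋃ n, (DD s P Q n ∩ (s n) ⁻¹' S)) ∪ ((⋃ n, DD s P Q n)ᶜ ∩ S) := by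
      ext x
      simp only [mem_preimage, mem_union, mem_iUnion, mem_inter_iff, mem_compl_iff]
      by_cases h : ∃ n, x ∈ DD s P Q n
      · obtain ⟨n, hn⟩ := h
        rw [hb n x hn]
        constructor
        · intro h1
          exact Or.inl ⟨n, hn, h1⟩
        · rintro (⟨m, hm1, hm2⟩ | ⟨h1, _⟩)
          · rw [hdis n m x hn hm1]
            exact hm2
          · exact (h1 ⟨n, hn⟩).elim
      · rw [hb0 x h]
        constructor
        · intro h1
          exact Or.inr ⟨h, h1⟩
        · rintro (⟨m, hm1, _⟩ | ⟨_, h1⟩)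
          · exact (h ⟨m, hm1⟩).elim
          · exact h1
    rw [e1]
    exact (MeasurableSet.iUnion fun n => (hDm n).inter (hS.preimage (hsm n))).union
      ((MeasurableSet.iUnion hDm).compl.inter hS)
  · intro x hx y hy hxy
    obtain ⟨n, hn⟩ := mem_iUnion.1 hx
    obtain ⟨m, hm'⟩ := mem_iUnion.1 hy
    rw [hb n x hn, hb m y hm'] at hxy
    exact hinj n m x y hn hm' hxy
  · intro x hx
    obtain ⟨n, hn⟩ := mem_iUnion.1 hx
    rw [hb n x hn]
    exact pq_anti2 s P Q (Nat.zero_le n) (hbQ n x hn).1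
  · intro x hx
    obtain ⟨n, hn⟩ := mem_iUnion.1 hx
    rw [hb n x hn]
    exact (hs _ _).2 ⟨n, rfl⟩

theorem matchings {X : Type} [MeasurableSpace X] (s : ℕ → X → X)
    (hsm : ∀ n, Measurable (s n)) (hinv : ∀ n x, s n (s n x) = x) (E : X → X → Prop)
    (hE : Equivalence E) (hs : ∀ x y, E x y ↔ ∃ n, s n x = y) (P : Set X) (Q : ℕ → Set X)
    (hP : MeasurableSet P) (hQ : ∀ i, MeasurableSet (Q i)) (hPf : Fat E P)
    (hQf : ∀ i, Fat E (Q i)) (F : Finset ℕ) :
    ∃ (D : Set X) (b : ℕ → X → X), MeasurableSet D ∧ D ⊆ P ∧ Fat E D ∧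
      (∀ i, Measurable (b i)) ∧ (∀ i ∈ F, InjOn (b i) D) ∧ (∀ i ∈ F, ∀ x ∈ D, b i x ∈ Q i) ∧
      ∀ i ∈ F, ∀ x ∈ D, E x (b i x) := by
  classical
  induction F using Finset.induction_on with
  | empty =>
    exact ⟨P, fun _ => id, hP, subset_rfl, hPf, fun _ => measurable_id, by simp, by simp, by simp⟩
  | insert a F ha ih =>
    obtain ⟨D, b, h1, h2, h3, h4, h5, h6, h7⟩ := ih
    obtain ⟨D', b', g1, g2, g3, g4, g5, g6, g7⟩ :=
      matching s hsm hinv E hE hs D (Q a) h1 (hQ a) h3 (hQf a)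
    refine ⟨D', Function.update b a b', g1, g2.trans h2, g3, ?_, ?_, ?_, ?_⟩
    · intro i
      by_cases hi : i = a
      · subst hi
        rw [Function.update_self]
        exact g4
      · rw [Function.update_of_ne hi]
        exact h4 i
    · intro i hiF
      by_cases hi : i = a
      · subst hi
        rw [Function.update_self]
        exact g5
      · rw [Function.update_of_ne hi]
        exact (h5 i ((Finset.mem_insert.1 hiF).resolve_left hi)).mono g2
    · intro i hiF x hx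
      by_cases hi : i = a
      · subst hi
        rw [Function.update_self]
        exact g6 x hx
      · rw [Function.update_of_ne hi]
        exact h6 i ((Finset.mem_insert.1 hiF).resolve_left hi) x (g2 hx)
    · intro i hiF x hx
      by_cases hi : i = a
      · subst hi
        rw [Function.update_self]
        exact g7 x hx
      · rw [Function.update_of_ne hi]
        exact h7 i ((Finset.mem_insert.1 hiF).resolve_left hi) x (g2 hx)

theorem s_blocks : Pool.Agent.Q215.MK.S_blocks := by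
  classical
  intro X _ _ s hsm hinv E hE hs hinf lv i0 hfin hne h0
  obtain ⟨r, hr, hrf⟩ := Pool.Agent.H139R3.MF.exists_marker E s hE hsm hs hinf
  have hMm : ∀ m, MeasurableSet (r ⁻¹' {m}) := fun m => hr (measurableSet_singleton m)
  have hMf : ∀ m, Fat E (r ⁻¹' {m}) := fun m x => hrf x m
  have hex : ∀ l : ℕ, ∃ (D : Set X) (b : ℕ → X → X), MeasurableSet D ∧ D ⊆ r ⁻¹' {2 * l + 2} ∧
      Fat E D ∧ (∀ i, Measurable (b i)) ∧ (∀ i ∈ (hfin l).toFinset, InjOn (b i) D) ∧
      (∀ i ∈ (hfin l).toFinset, ∀ x ∈ D, b i x ∈ r ⁻¹' {2 * i + 1}) ∧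
      ∀ i ∈ (hfin l).toFinset, ∀ x ∈ D, E x (b i x) := fun l =>
    matchings s hsm hinv E hE hs (r ⁻¹' {2 * l + 2}) (fun i => r ⁻¹' {2 * i + 1}) (hMm _)
      (fun i => hMm _) (hMf _) (fun i => hMf _) _
  choose D b hDm hDP hDf hbm hbi hbQ hbE using hex
  -- the pieces
  let c : ℕ → X → X := fun i => b (lv i) i
  have hcm : ∀ i, Measurable (c i) := fun i => hbm _ _
  have hmem : ∀ i, i ∈ (hfin (lv i)).toFinset := fun i => by simp
  have hci : ∀ i, InjOn (c i) (D (lv i)) := fun i => hbi _ i (hmem i)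
  have hcQ : ∀ i, ∀ x ∈ D (lv i), r (c i x) = 2 * i + 1 := fun i x hx => hbQ _ i (hmem i) x hx
  have hcE : ∀ i, ∀ x ∈ D (lv i), E x (c i x) := fun i x hx => hbE _ i (hmem i) x hx
  let B : ℕ → Set X := fun i => if lv i = 0 then ∅ else c i '' D (lv i)
  have hBpos : ∀ i x, x ∈ B i → lv i ≠ 0 ∧ ∃ d ∈ D (lv i), c i d = x := by
    intro i x hx
    by_cases h : lv i = 0
    · simp only [B, if_pos h] at hx
      exact hx.elim
    · simp only [B, if_neg h] at hx
      exact ⟨h, hx⟩
  have hBmem : ∀ i d, lv i ≠ 0 → d ∈ D (lv i) → c i d ∈ B i := by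
    intro i d h hd
    simp only [B, if_neg h]
    exact ⟨d, hd, rfl⟩
  have hBr : ∀ i x, x ∈ B i → r x = 2 * i + 1 := by
    intro i x hx
    obtain ⟨_, d, hd, rfl⟩ := hBpos i x hx
    exact hcQ i d hd
  have hBm : ∀ i, MeasurableSet (B i) := by
    intro i
    by_cases h : lv i = 0
    · simp only [B, if_pos h]
      exact MeasurableSet.empty
    · simp only [B, if_neg h]
      exact (hDm _).image_of_measurable_injOn (hcm i) (hci i)
  have hdiv : ∀ i x, x ∈ B i → r x / 2 = i := by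
    intro i x hx
    have := hBr i x hx
    omega
  let σ : X → ℕ := fun x => if x ∈ B (r x / 2) then r x / 2 else i0
  have hσ1 : ∀ i x, x ∈ B i → σ x = i := by
    intro i x hx
    have h := hdiv i x hx
    simp only [σ, h, if_pos hx]
  have hσ0 : ∀ x, (¬ ∃ i, x ∈ B i) → σ x = i0 := by
    intro x hx
    have h : x ∉ B (r x / 2) := fun h => hx ⟨_, h⟩
    simp only [σ, if_neg h]
  let ρ : X → X := fun x => if h : ∃ d ∈ D (lv (σ x)), c (σ x) d = x ∧ x ∈ B (σ x) then h.choose else x
  have hρ1 : ∀ i d, lv i ≠ 0 → d ∈ D (lv i) → ρ (c i d) = d := by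
    intro i d hi hd
    have hB := hBmem i d hi hd
    have hs' := hσ1 i _ hB
    have h : ∃ d' ∈ D (lv (σ (c i d))), c (σ (c i d)) d' = c i d ∧ c i d ∈ B (σ (c i d)) := by
      rw [hs']
      exact ⟨d, hd, rfl, hB⟩
    have h2 : ρ (c i d) = h.choose := by
      simp only [ρ, dif_pos h]
    rw [h2]
    obtain ⟨h3, h4, _⟩ := h.choose_spec
    revert h3 h4
    generalize h.choose = e
    rw [hs']
    intro h3 h4
    exact hci i h3 hd h4
  have hρ0 : ∀ x, (¬ ∃ i, x ∈ B i) → ρ x = x := by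
    intro x hx
    have h : ¬ ∃ d ∈ D (lv (σ x)), c (σ x) d = x ∧ x ∈ B (σ x) := by
      rintro ⟨d, _, _, h⟩
      exact hx ⟨_, h⟩
    simp only [ρ, dif_neg h]
  have hlv0 : lv i0 = 0 := (h0 i0).2 rfl
  let β : ℕ → X → X := fun i => if lv i = 0 then id else c i
  have hβ0 : β i0 = id := by simp only [β, if_pos hlv0]
  have hβ1 : ∀ i, lv i ≠ 0 → β i = c i := by
    intro i hi
    simp only [β, if_neg hi]
  refine ⟨σ, ρ, β, ?_, ?_, ?_, ?_, ?_, ?_⟩
  · refine measurable_to_countable' (fun i => ?_)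
    have e1 : σ ⁻¹' {i} = B i ∪ (if i = i0 then (⋃ j, B j)ᶜ else ∅) := by
      ext x
      simp only [mem_preimage, mem_singleton_iff, mem_union]
      by_cases h : ∃ j, x ∈ B j
      · obtain ⟨j, hj⟩ := h
        rw [hσ1 j x hj]
        constructor
        · rintro rfl
          exact Or.inl hj
        · rintro (h1 | h1)
          · rw [← hdiv j x hj, ← hdiv i x h1]
          · by_cases hi : i = i0
            · rw [if_pos hi] at h1
              exact (h1 (mem_iUnion.2 ⟨j, hj⟩)).elim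
            · rw [if_neg hi] at h1
              exact h1.elim
      · rw [hσ0 x h]
        constructor
        · rintro rfl
          right
          rw [if_pos rfl]
          intro h1
          exact h (mem_iUnion.1 h1)
        · rintro (h1 | h1)
          · exact (h ⟨i, h1⟩).elim
          · by_cases hi : i = i0
            · exact hi.symm
            · rw [if_neg hi] at h1
              exact h1.elim
    rw [e1]
    refine (hBm i).union ?_
    by_cases hi : i = i0
    · rw [if_pos hi]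
      exact (MeasurableSet.iUnion hBm).compl
    · rw [if_neg hi]
      exact MeasurableSet.empty
  · intro S hS
    have e1 : ρ ⁻¹' S = (⋃ i, (if lv i = 0 then ∅ else c i '' (D (lv i) ∩ S))) ∪
        ((⋃ i, B i)ᶜ ∩ S) := by
      ext x
      simp only [mem_preimage, mem_union, mem_iUnion, mem_inter_iff, mem_compl_iff]
      by_cases h : ∃ j, x ∈ B j
      · obtain ⟨j, hj⟩ := h
        obtain ⟨hj0, d, hd, rfl⟩ := hBpos j x hj
        rw [hρ1 j d hj0 hd]
        constructor
        · intro h1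
          left
          refine ⟨j, ?_⟩
          rw [if_neg hj0]
          exact ⟨d, ⟨hd, h1⟩, rfl⟩
        · rintro (⟨i, hi⟩ | ⟨h1, _⟩)
          · by_cases hi0 : lv i = 0
            · rw [if_pos hi0] at hi
              exact hi.elim
            · rw [if_neg hi0] at hi
              obtain ⟨d', ⟨hd', hS'⟩, he⟩ := hi
              have : ρ (c i d') = d' := hρ1 i d' hi0 hd'
              rw [he, hρ1 j d hj0 hd] at this
              rw [this]
              exact hS'
          · exact (h1 ⟨j, hj⟩).elim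
      · rw [hρ0 x h]
        constructor
        · intro h1
          exact Or.inr ⟨h, h1⟩
        · rintro (⟨i, hi⟩ | ⟨_, h1⟩)
          · by_cases hi0 : lv i = 0
            · rw [if_pos hi0] at hi
              exact hi.elim
            · rw [if_neg hi0] at hi
              obtain ⟨d', ⟨hd', _⟩, he⟩ := hi
              exact (h ⟨i, he ▸ hBmem i d' hi0 hd'⟩).elim
          · exact h1
    rw [e1]
    refine (MeasurableSet.iUnion fun i => ?_).union ((MeasurableSet.iUnion hBm).compl.inter hS)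
    by_cases hi : lv i = 0
    · rw [if_pos hi]
      exact MeasurableSet.empty
    · rw [if_neg hi]
      exact ((hDm _).inter hS).image_of_measurable_injOn (hcm i)
        ((hci i).mono inter_subset_left)
  · intro i
    by_cases hi : lv i = 0
    · simp only [β, if_pos hi]
      exact measurable_id
    · rw [hβ1 i hi]
      exact hcm i
  · intro x
    by_cases h : ∃ j, x ∈ B j
    · obtain ⟨j, hj⟩ := h
      rw [hσ1 j x hj]
      obtain ⟨hj0, d, hd, rfl⟩ := hBpos j x hj
      rw [hρ1 j d hj0 hd, hβ1 j hj0]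
    · rw [hσ0 x h, hρ0 x h, hβ0]
      rfl
  · intro x i hi
    by_cases h : ∃ j, x ∈ B j
    · obtain ⟨j, hj⟩ := h
      rw [hσ1 j x hj] at hi
      obtain ⟨hj0, d, hd, rfl⟩ := hBpos j x hj
      have hi0 : lv i ≠ 0 := by rw [hi]; exact hj0
      have hd' : d ∈ D (lv i) := by rw [hi]; exact hd
      rw [hρ1 j d hj0 hd, hβ1 i hi0]
      refine ⟨hσ1 i _ (hBmem i d hi0 hd'), hρ1 i d hi0 hd', ?_⟩
      exact hE.trans (hE.symm (hcE j d hd)) (hcE i d hd')
    · rw [hσ0 x h, hlv0] at hi
      have hi' : i = i0 := (h0 i).1 hi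
      rw [hi', hρ0 x h, hβ0]
      exact ⟨hσ0 x h, hρ0 x h, hE.refl x⟩
  · intro x l
    by_cases hl : l = 0
    · obtain ⟨y, hy1, hy2⟩ := (hrf x 0).nonempty
      refine ⟨y, hy1, ?_⟩
      have h : ¬ ∃ i, y ∈ B i := by
        rintro ⟨i, hi⟩
        have := hBr i y hi
        omega
      rw [hσ0 y h, hlv0, hl]
    · obtain ⟨i, hi⟩ := hne l
      have hi0 : lv i ≠ 0 := by rw [hi]; exact hl
      obtain ⟨d, hd1, hd2⟩ := (hDf (lv i) x).nonempty
      refine ⟨c i d, hE.trans hd1 (hcE i d hd2), ?_⟩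
      rw [hσ1 i _ (hBmem i d hi0 hd2), hi]

end Pool.Agent.Q178.MK
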